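import Pool.Agent.Helper14.SL.Roots

/-!
# SL-2: the splitting field of `Y^(q^2) - T Y^q + Y` (helper21)
-/

set_option autoImplicit false
open scoped Pointwise
open Pool.Agent.Helper54.PW
open Polynomial

namespace Pool.Agent.Helper54.SL

private noncomputable def LP (q : ℕ) {M : Type} [Field M] (T : M) : M[X] :=
  X ^ (q ^ 2) - C T * X ^ q + X

private theorem LP_deg {q : ℕ} (hq : 1 < q) {M : Type} [Field M] (T : M) :
    (LP q T).natDegree = q ^ 2 := by
  have h1 : q < q ^ 2 := by nlinarith
  have h2 : (C T * X ^ q - X : M[X]).natDegree < q ^ 2 := by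
    refine lt_of_le_of_lt (natDegree_sub_le _ _) ?_
    rw [natDegree_X]
    refine max_lt (lt_of_le_of_lt (natDegree_C_mul_X_pow_le T q) h1) (by omega)
  have h3 : LP q T = X ^ (q ^ 2) - (C T * X ^ q - X) := by
    unfold LP; ring
  rw [h3, natDegree_sub_eq_left_of_natDegree_lt, natDegree_X_pow]
  rwa [natDegree_X_pow]

private theorem LP_ne {q : ℕ} (hq : 1 < q) {M : Type} [Field M] (T : M) : LP q T ≠ 0 := by
  intro h
  have := LP_deg hq T
  rw [h, natDegree_zero] at this
  have h2 : 0 < q ^ 2 := by positivity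
  omega

private theorem LP_sep {p n : ℕ} [Fact p.Prime] (hn : 0 < n) {M : Type} [Field M] [CharP M p]
    (T : M) : (LP (p ^ n) T).Separable := by
  have hz : ((p ^ n : ℕ) : M) = 0 := by
    rw [Nat.cast_pow, CharP.cast_eq_zero, zero_pow (by omega)]
  have h : derivative (LP (p ^ n) T) = 1 := by
    unfold LP
    rw [derivative_add, derivative_sub, derivative_X_pow, derivative_C_mul_X_pow, derivative_X,
      Nat.cast_pow (p ^ n) 2, hz]
    simp
  unfold Polynomial.Separable
  rw [h]
  exact isCoprime_one_right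

private theorem LP_root {q : ℕ} {M L : Type} [Field M] [Field L] [Algebra M L] (T : M) (y : L) :
    ((LP q T).map (algebraMap M L)).IsRoot y ↔ Rt q (algebraMap M L T) y := by
  unfold LP Rt
  simp [Polynomial.IsRoot]

private theorem mem_rootSet_LP {q : ℕ} (hq : 1 < q) {M L : Type} [Field M] [Field L] [Algebra M L]
    (T : M) (y : L) : y ∈ (LP q T).rootSet L ↔ Rt q (algebraMap M L T) y := by
  rw [mem_rootSet, and_iff_right (LP_ne hq T), ← LP_root, IsRoot, eval_map_algebraMap]

private theorem fix_range {q : ℕ} (hq : 1 < q) {k L : Type} [Field k] [IsAlgClosed k] [Field L]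
    (ψ : k →+* L) (c : L) (hc : c ^ q = c) : ∃ a : k, ψ a = c ∧ a ^ q = a := by
  have hf : (X ^ q - X : k[X]) ≠ 0 := FiniteField.X_pow_card_sub_X_ne_zero k hq
  have h1 : ((X ^ q - X : k[X]).map ψ).IsRoot c := by
    simp [IsRoot, hc]
  obtain ⟨a, ha⟩ := (IsAlgClosed.splits (X ^ q - X : k[X])).mem_range_of_isRoot hf h1
  refine ⟨a, ha, ψ.injective ?_⟩
  rw [map_pow, ha, hc]

private theorem card_fix {p n : ℕ} [Fact p.Prime] (hn : 0 < n) {k : Type} [Field k]
    [IsAlgClosed k] [CharP k p] :
    ∃ K : Finset k, K.card = p ^ n ∧ ∀ a ∈ K, a ^ (p ^ n) = a := by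
  classical
  have hq : 1 < p ^ n := Nat.one_lt_pow (by omega) (Nat.Prime.one_lt Fact.out)
  set f : k[X] := X ^ (p ^ n) - X with hf
  have hf0 : f ≠ 0 := FiniteField.X_pow_card_sub_X_ne_zero k hq
  have hdeg : f.natDegree = p ^ n := FiniteField.X_pow_card_sub_X_natDegree_eq k hq
  have hsep : f.Separable := galois_poly_separable p (p ^ n) (dvd_pow_self p (by omega))
  refine ⟨f.roots.toFinset, ?_, ?_⟩
  · rw [Multiset.toFinset_card_of_nodup (nodup_roots hsep),
      ← (IsAlgClosed.splits f).natDegree_eq_card_roots, hdeg]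
  · intro a ha
    rw [Multiset.mem_toFinset, mem_roots hf0] at ha
    simp only [hf, IsRoot, eval_sub, eval_pow, eval_X] at ha
    exact sub_eq_zero.1 ha

section

variable {p n : ℕ} [Fact p.Prime] {k M L : Type} [Field k] [IsAlgClosed k]
    [CharP k p] [Field M] [Algebra k M] [Field L] [Algebra M L]

include k M in
private theorem charL : CharP L p :=
  charP_of_injective_ringHom ((algebraMap M L).comp (algebraMap k M)).injective p

include k in
private theorem LP_splits (hn : 0 < n) (T : M) (y0 y1 : L)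
    (h0 : Rt (p ^ n) (algebraMap M L T) y0) (h1 : Rt (p ^ n) (algebraMap M L T) y1)
    (hd : dd (p ^ n) y0 y1 = 1) : ((LP (p ^ n) T).map (algebraMap M L)).Splits := by
  classical
  have hq : 1 < p ^ n := Nat.one_lt_pow (by omega) (Nat.Prime.one_lt Fact.out)
  have hchar : CharP L p := charL (k := k) (M := M)
  obtain ⟨K, hK, hKf⟩ := card_fix (p := p) (n := n) hn (k := k)
  let ψ : k →+* L := (algebraMap M L).comp (algebraMap k M)
  have hψ : ∀ a ∈ K, ψ a ^ (p ^ n) = ψ a := by
    intro a ha
    rw [← map_pow, hKf a ha]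
  set f := (LP (p ^ n) T).map (algebraMap M L) with hf
  have hf0 : f ≠ 0 := by
    rw [hf, Ne, Polynomial.map_eq_zero]
    exact LP_ne hq T
  have hdeg : f.natDegree = (p ^ n) ^ 2 := by rw [hf, natDegree_map, LP_deg hq]
  rw [splits_iff_card_roots]
  apply le_antisymm (card_roots' f)
  have h2 : (K ×ˢ K).card ≤ f.roots.toFinset.card := by
    refine Finset.card_le_card_of_injOn (fun ab => ψ ab.1 * y0 + ψ ab.2 * y1) ?_ ?_
    · intro ab hab
      rw [Finset.mem_coe, Finset.mem_product] at hab
      rw [Finset.mem_coe, Multiset.mem_toFinset, mem_roots hf0, hf, LP_root]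
      exact rt_add (rt_smul (hψ _ hab.1) h0) (rt_smul (hψ _ hab.2) h1)
    · intro ab hab cd hcd h
      rw [Finset.mem_coe, Finset.mem_product] at hab hcd
      obtain ⟨e1, e2⟩ := coord_unique hd (hψ _ hab.1) (hψ _ hab.2) (hψ _ hcd.1) (hψ _ hcd.2) h
      exact Prod.ext (ψ.injective e1) (ψ.injective e2)
  rw [Finset.card_product, hK] at h2
  rw [hdeg, sq]
  exact h2.trans (Multiset.toFinset_card_le _)

include k in
private theorem root_mem_adjoin (hn : 0 < n) (T : M) (y0 y1 : L)
    (h0 : Rt (p ^ n) (algebraMap M L T) y0) (h1 : Rt (p ^ n) (algebraMap M L T) y1)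
    (hd : dd (p ^ n) y0 y1 = 1) (y : L) (hy : Rt (p ^ n) (algebraMap M L T) y) :
    y ∈ IntermediateField.adjoin M {y0, y1} := by
  have hq : 1 < p ^ n := Nat.one_lt_pow (by omega) (Nat.Prime.one_lt Fact.out)
  have hchar : CharP L p := charL (k := k) (M := M)
  obtain ⟨a, ha, -⟩ := fix_range hq ((algebraMap M L).comp (algebraMap k M)) _ (dd_fix hy h1)
  obtain ⟨b, hb, -⟩ := fix_range hq ((algebraMap M L).comp (algebraMap k M)) _ (dd_fix h0 hy)
  rw [rt_decomp h0 h1 hd hy, ← ha, ← hb]
  refine add_mem (mul_mem (IntermediateField.algebraMap_mem _ _)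
    (IntermediateField.subset_adjoin _ _ (by simp))) (mul_mem (IntermediateField.algebraMap_mem _ _)
    (IntermediateField.subset_adjoin _ _ (by simp)))

end

/-- `M` contains the field with `p^n` elements because it contains an algebraically closed field -/
theorem isGalois_adjoin {p n : ℕ} [Fact p.Prime] (hn : 0 < n) {k M L : Type} [Field k] [IsAlgClosed k]
    [CharP k p] [Field M] [Algebra k M] [Field L] [Algebra M L] (T : M) (y0 y1 : L)
    (h0 : Rt (p ^ n) (algebraMap M L T) y0) (h1 : Rt (p ^ n) (algebraMap M L T) y1)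
    (hd : dd (p ^ n) y0 y1 = 1) :
    IsGalois M (IntermediateField.adjoin M {y0, y1}) ∧
      FiniteDimensional M (IntermediateField.adjoin M {y0, y1}) := by
  have hq : 1 < p ^ n := Nat.one_lt_pow (by omega) (Nat.Prime.one_lt Fact.out)
  have hM : CharP M p := charP_of_injective_ringHom (algebraMap k M).injective p
  have hroots : ∀ y ∈ (LP (p ^ n) T).rootSet L, y ∈ IntermediateField.adjoin M {y0, y1} := by
    intro y hy
    rw [mem_rootSet_LP hq] at hy
    exact root_mem_adjoin (k := k) hn T y0 y1 h0 h1 hd y hy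
  have hsf : (LP (p ^ n) T).IsSplittingField M (IntermediateField.adjoin M {y0, y1}) := by
    rw [IntermediateField.isSplittingField_iff]
    refine ⟨IntermediateField.splits_of_splits (LP_splits (k := k) hn T y0 y1 h0 h1 hd) hroots, ?_⟩
    apply le_antisymm
    · rw [IntermediateField.adjoin_le_iff]
      rintro y (rfl | rfl)
      · exact IntermediateField.subset_adjoin _ _ ((mem_rootSet_LP hq T y).2 h0)
      · exact IntermediateField.subset_adjoin _ _ ((mem_rootSet_LP hq T y).2 h1)
    · rw [IntermediateField.adjoin_le_iff]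
      exact hroots
  exact ⟨IsGalois.of_separable_splitting_field (LP_sep hn T),
    IsSplittingField.finiteDimensional _ (LP (p ^ n) T)⟩

theorem exists_split {p n : ℕ} [Fact p.Prime] (hn : 0 < n) {k M : Type} [Field k] [IsAlgClosed k]
    [CharP k p] [Field M] [Algebra k M] (T : M) :
    ∃ (L : Type) (_ : Field L) (_ : Algebra M L), FiniteDimensional M L ∧ IsGalois M L ∧
      ∃ y0 y1 : L, Rt (p ^ n) (algebraMap M L T) y0 ∧ Rt (p ^ n) (algebraMap M L T) y1 ∧
        dd (p ^ n) y0 y1 = 1 ∧ IntermediateField.adjoin M {y0, y1} = ⊤ := by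
  classical
  have hq : 1 < p ^ n := Nat.one_lt_pow (by omega) (Nat.Prime.one_lt Fact.out)
  have hM : CharP M p := charP_of_injective_ringHom (algebraMap k M).injective p
  set f := LP (p ^ n) T with hf
  have hL : CharP f.SplittingField p :=
    charP_of_injective_ringHom (algebraMap M f.SplittingField).injective p
  have hsep : f.Separable := LP_sep hn T
  have hgal : IsGalois M f.SplittingField := IsGalois.of_separable_splitting_field hsep
  have hsplit := SplittingField.splits f
  set g := f.map (algebraMap M f.SplittingField) with hg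
  have hg0 : g ≠ 0 := by
    rw [hg, Ne, Polynomial.map_eq_zero]
    exact LP_ne hq T
  have hcard : g.roots.toFinset.card = (p ^ n) ^ 2 := by
    rw [Multiset.toFinset_card_of_nodup (nodup_roots hsep.map), ← hsplit.natDegree_eq_card_roots,
      hg, natDegree_map, hf, LP_deg hq]
  have hmem : ∀ y, y ∈ g.roots.toFinset ↔ Rt (p ^ n) (algebraMap M f.SplittingField T) y := by
    intro y
    rw [Multiset.mem_toFinset, mem_roots hg0]
    exact LP_root T y
  -- a nonzero root
  obtain ⟨y0, hy0, hy00⟩ : ∃ y0 ∈ g.roots.toFinset, y0 ≠ 0 := by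
    by_contra hcon
    push Not at hcon
    have h1 : g.roots.toFinset ⊆ {0} := fun y hy => Finset.mem_singleton.2 (hcon y hy)
    have h2 := Finset.card_le_card h1
    rw [hcard, Finset.card_singleton] at h2
    nlinarith
  -- the line through it
  set h : f.SplittingField[X] := X ^ (p ^ n) - X with hh
  have hh0 : h ≠ 0 := FiniteField.X_pow_card_sub_X_ne_zero _ hq
  have hhdeg : h.natDegree = p ^ n := FiniteField.X_pow_card_sub_X_natDegree_eq _ hq
  obtain ⟨y1, hy1, hy1n⟩ : ∃ y1 ∈ g.roots.toFinset,
      y1 ∉ h.roots.toFinset.image (fun c => c * y0) := by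
    by_contra hcon
    push Not at hcon
    have h2 := Finset.card_le_card (fun y hy => hcon y hy :
      g.roots.toFinset ⊆ h.roots.toFinset.image (fun c => c * y0))
    rw [hcard] at h2
    have h3 : (h.roots.toFinset.image (fun c => c * y0)).card ≤ p ^ n :=
      Finset.card_image_le.trans ((Multiset.toFinset_card_le _).trans
        ((card_roots' h).trans hhdeg.le))
    nlinarith
  have r0 := (hmem y0).1 hy0
  have r1 := (hmem y1).1 hy1
  set e := dd (p ^ n) y0 y1 with he
  have hefix : e ^ (p ^ n) = e := dd_fix r0 r1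
  have he0 : e ≠ 0 := by
    intro h0
    apply hy1n
    rw [Finset.mem_image]
    refine ⟨y1 / y0, ?_, div_mul_cancel₀ _ hy00⟩
    rw [Multiset.mem_toFinset, mem_roots hh0]
    simp only [hh, IsRoot, eval_sub, eval_pow, eval_X]
    rw [div_pow, div_sub_div _ _ (pow_ne_zero _ hy00) hy00]
    have : y1 ^ p ^ n * y0 - y0 ^ p ^ n * y1 = 0 := by
      rw [← h0, he]; unfold dd; ring
    rw [this, zero_div]
  have heinv : (e⁻¹) ^ (p ^ n) = e⁻¹ := by rw [inv_pow, hefix]
  have hdd : dd (p ^ n) y0 (e⁻¹ * y1) = 1 := by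
    unfold dd
    rw [mul_pow, heinv]
    have : y0 * (e⁻¹ * y1 ^ p ^ n) - y0 ^ p ^ n * (e⁻¹ * y1) = e⁻¹ * e := by
      rw [he]; unfold dd; ring
    rw [this, inv_mul_cancel₀ he0]
  have r1' := rt_smul heinv r1
  refine ⟨f.SplittingField, inferInstance, inferInstance, inferInstance, hgal, y0, e⁻¹ * y1, r0,
    r1', hdd, ?_⟩
  rw [eq_top_iff]
  have h4 := (isSplittingField_iff_intermediateField.1
    (inferInstance : f.IsSplittingField M f.SplittingField)).2
  rw [← h4, IntermediateField.adjoin_le_iff]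
  intro y hy
  rw [mem_rootSet_LP hq] at hy
  exact root_mem_adjoin (k := k) hn T _ _ r0 r1' hdd y hy

end Pool.Agent.Helper54.SL
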