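import Pool.Agent.Helper14.SL.Roots

/-!
# SL-3: the representation of the Galois group (helper21)
-/

set_option autoImplicit false
open scoped Pointwise
open Pool.Agent.Helper54.PW

namespace Pool.Agent.Helper54.SL

private theorem from_fix {q : ℕ} (hq : 1 < q) {L 𝔽 : Type} [Field L] [Field 𝔽] [Fintype 𝔽]
    (h𝔽 : Fintype.card 𝔽 = q) (j : 𝔽 →+* L) (c : L) (hc : c ^ q = c) : ∃ a : 𝔽, j a = c := by
  classical
  let f : Polynomial L := Polynomial.X ^ q - Polynomial.X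
  have hf : f ≠ 0 := FiniteField.X_pow_card_sub_X_ne_zero L hq
  have hdeg : f.natDegree = q := FiniteField.X_pow_card_sub_X_natDegree_eq L hq
  have hsub : Finset.univ.image j ⊆ f.roots.toFinset := by
    intro y hy
    obtain ⟨a, -, rfl⟩ := Finset.mem_image.1 hy
    rw [Multiset.mem_toFinset, Polynomial.mem_roots hf]
    simp only [f, Polynomial.IsRoot, Polynomial.eval_sub, Polynomial.eval_pow, Polynomial.eval_X]
    rw [← map_pow, ← h𝔽, FiniteField.pow_card, sub_self]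
  have hcard : f.roots.toFinset.card ≤ (Finset.univ.image j).card := by
    rw [Finset.card_image_of_injective _ j.injective, Finset.card_univ, h𝔽, ← hdeg]
    exact (Multiset.toFinset_card_le _).trans (Polynomial.card_roots' f)
  have heq := Finset.eq_of_subset_of_card_le hsub hcard
  have hcm : c ∈ f.roots.toFinset := by
    rw [Multiset.mem_toFinset, Polynomial.mem_roots hf]
    simp only [f, Polynomial.IsRoot, Polynomial.eval_sub, Polynomial.eval_pow, Polynomial.eval_X]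
    rw [hc, sub_self]
  rw [← heq] at hcm
  obtain ⟨a, -, ha⟩ := Finset.mem_image.1 hcm
  exact ⟨a, ha⟩

private theorem dd_comb {p n : ℕ} [Fact p.Prime] {L : Type} [Field L] [CharP L p]
    (y0 y1 a b c d : L) (ha : a ^ (p ^ n) = a) (hb : b ^ (p ^ n) = b) (hc : c ^ (p ^ n) = c)
    (hdd : d ^ (p ^ n) = d) :
    dd (p ^ n) (a * y0 + c * y1) (b * y0 + d * y1) = (a * d - b * c) * dd (p ^ n) y0 y1 := by
  unfold dd
  rw [add_pow_char_pow, add_pow_char_pow, mul_pow, mul_pow, mul_pow, mul_pow, ha, hb, hc, hdd]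
  ring

theorem exists_rep {p n : ℕ} [Fact p.Prime] {M L 𝔽 : Type} [Field M] [Field L] [CharP L p]
    [Algebra M L] [Field 𝔽] [Fintype 𝔽] (h𝔽 : Fintype.card 𝔽 = p ^ n) (ι : 𝔽 →+* M) (T : M) (y0 y1 : L)
    (h0 : Rt (p ^ n) (algebraMap M L T) y0) (h1 : Rt (p ^ n) (algebraMap M L T) y1)
    (hd : dd (p ^ n) y0 y1 = 1) :
    ∃ ρ : (L ≃ₐ[M] L) →* Matrix.SpecialLinearGroup (Fin 2) 𝔽, ∀ σ : L ≃ₐ[M] L,
      σ y0 = algebraMap M L (ι ((ρ σ).1 0 0)) * y0 + algebraMap M L (ι ((ρ σ).1 1 0)) * y1 ∧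
      σ y1 = algebraMap M L (ι ((ρ σ).1 0 1)) * y0 + algebraMap M L (ι ((ρ σ).1 1 1)) * y1 := by
  have hq : 1 < p ^ n := by
    rw [← h𝔽]; exact Fintype.one_lt_card
  let j : 𝔽 →+* L := (algebraMap M L).comp ι
  have hj : ∀ a : 𝔽, j a ^ (p ^ n) = j a := by
    intro a
    rw [← map_pow, ← h𝔽, FiniteField.pow_card]
  have hσj : ∀ (σ : L ≃ₐ[M] L) (a : 𝔽), σ (j a) = j a := fun σ a => σ.commutes (ι a)
  have hσRt : ∀ (σ : L ≃ₐ[M] L) (y : L), Rt (p ^ n) (algebraMap M L T) y →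
      Rt (p ^ n) (algebraMap M L T) (σ y) := by
    intro σ y hy
    unfold Rt at hy ⊢
    have := congrArg σ hy
    rwa [map_add, map_sub, map_mul, map_pow, map_pow, σ.commutes, map_zero] at this
  have key : ∀ σ : L ≃ₐ[M] L, ∃ g : Matrix.SpecialLinearGroup (Fin 2) 𝔽,
      σ y0 = j (g.1 0 0) * y0 + j (g.1 1 0) * y1 ∧ σ y1 = j (g.1 0 1) * y0 + j (g.1 1 1) * y1 := by
    intro σ
    have r0 := hσRt σ y0 h0
    have r1 := hσRt σ y1 h1
    obtain ⟨a, ha⟩ := from_fix hq h𝔽 j _ (dd_fix r0 h1)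
    obtain ⟨c, hc⟩ := from_fix hq h𝔽 j _ (dd_fix h0 r0)
    obtain ⟨b, hb⟩ := from_fix hq h𝔽 j _ (dd_fix r1 h1)
    obtain ⟨d, hdd⟩ := from_fix hq h𝔽 j _ (dd_fix h0 r1)
    have e0 : σ y0 = j a * y0 + j c * y1 := by rw [ha, hc]; exact rt_decomp h0 h1 hd r0
    have e1 : σ y1 = j b * y0 + j d * y1 := by rw [hb, hdd]; exact rt_decomp h0 h1 hd r1
    have hdet : a * d - b * c = 1 := by
      apply j.injective
      have h2 : dd (p ^ n) (σ y0) (σ y1) = 1 := by
        have := congrArg σ hd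
        unfold dd at this ⊢
        simpa using this
      rw [e0, e1, dd_comb _ _ _ _ _ _ (hj a) (hj b) (hj c) (hj d), hd, mul_one] at h2
      rw [map_one, ← h2]
      simp
    refine ⟨⟨!![a, b; c, d], by rw [Matrix.det_fin_two_of, hdet]⟩, ?_, ?_⟩
    · simpa using e0
    · simpa using e1
  choose ρ hρ using key
  refine ⟨MonoidHom.mk' ρ ?_, hρ⟩
  intro σ τ
  obtain ⟨s0, s1⟩ := hρ σ
  obtain ⟨t0, t1⟩ := hρ τ
  obtain ⟨u0, u1⟩ := hρ (σ * τ)
  have v0 : (σ * τ) y0 = j ((ρ σ * ρ τ).1 0 0) * y0 + j ((ρ σ * ρ τ).1 1 0) * y1 := by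
    rw [AlgEquiv.mul_apply, t0, map_add, map_mul, map_mul, hσj, hσj, s0, s1,
      Matrix.SpecialLinearGroup.coe_mul, Matrix.mul_apply, Matrix.mul_apply, Fin.sum_univ_two,
      Fin.sum_univ_two, map_add, map_add, map_mul, map_mul, map_mul, map_mul]
    ring
  have v1 : (σ * τ) y1 = j ((ρ σ * ρ τ).1 0 1) * y0 + j ((ρ σ * ρ τ).1 1 1) * y1 := by
    rw [AlgEquiv.mul_apply, t1, map_add, map_mul, map_mul, hσj, hσj, s0, s1,
      Matrix.SpecialLinearGroup.coe_mul, Matrix.mul_apply, Matrix.mul_apply, Fin.sum_univ_two,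
      Fin.sum_univ_two, map_add, map_add, map_mul, map_mul, map_mul, map_mul]
    ring
  obtain ⟨c00, c10⟩ := coord_unique hd (hj _) (hj _) (hj _) (hj _) (u0.symm.trans v0)
  obtain ⟨c01, c11⟩ := coord_unique hd (hj _) (hj _) (hj _) (hj _) (u1.symm.trans v1)
  apply Subtype.ext
  ext i l
  fin_cases i <;> fin_cases l
  · exact j.injective c00
  · exact j.injective c01
  · exact j.injective c10
  · exact j.injective c11

end Pool.Agent.Helper54.SL
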