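import Pool.Agent.Helper14.SL.Roots
import Pool.Agent.Helper54.PW.Final

/-!
# SL-6: the small root at infinity (helper21)
-/

set_option autoImplicit false
open scoped Pointwise
open Pool.Agent.Helper54.PW

namespace Pool.Agent.Helper54.SL

private theorem sm_deg {p n i : ℕ} (hp : 1 < p) (hn : 0 < n) (hi : i < n - 1) :
    p ^ i * (p ^ n + 1) - 2 * p ^ (n - 1) < p ^ (n - 1) * (p ^ n - 1) := by
  have h1 : p ^ i < p ^ (n - 1) := Nat.pow_lt_pow_right hp hi
  have h2 : 1 < p ^ n := Nat.one_lt_pow (by omega) hp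
  have h3 : p ^ i * (p ^ n + 1) < p ^ (n - 1) * (p ^ n + 1) := by
    apply Nat.mul_lt_mul_of_pos_right h1; omega
  have h4 : p ^ (n - 1) * (p ^ n + 1) = p ^ (n - 1) * (p ^ n - 1) + 2 * p ^ (n - 1) := by
    have h5 : p ^ n + 1 = (p ^ n - 1) + 2 := by omega
    rw [h5]; ring
  have h6 : 0 < p ^ (n - 1) * (p ^ n - 1) := by
    apply Nat.mul_pos
    · positivity
    · omega
  omega

private theorem exp_aux (m q : ℕ) (hq : 1 < q) : m * q = m + m * (q - 1) := by
  obtain ⟨r, rfl⟩ : ∃ r, q = r + 1 := ⟨q - 1, by omega⟩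
  rw [Nat.add_sub_cancel]; ring

private theorem mixed {G : Type} [LinearOrderedCommGroupWithZero G] {a t : G} {q : ℕ} (hq : 1 < q)
    (ha : a ≠ 0) (h : a ^ (q ^ 2) = t * a ^ q) : a ^ (q ^ 2 - q) = t := by
  have h1 : q ≤ q ^ 2 := by nlinarith
  have h2 : a ^ (q ^ 2) = a ^ (q ^ 2 - q) * a ^ q := by
    rw [← pow_add]; congr 1; omega
  rw [h2] at h
  exact mul_right_cancel₀ (pow_ne_zero q ha) h

private theorem dd_smul_right {q : ℕ} {L : Type} [Field L] {a b c : L} (hc : c ^ q = c) :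
    dd q a (c * b) = c * dd q a b := by
  unfold dd
  rw [mul_pow, hc]
  ring

private theorem fixed_of_dd_zero {q : ℕ} {L : Type} [Field L] {y0 y : L} (h0 : y0 ≠ 0)
    (h : dd q y0 y = 0) : (y / y0) ^ q = y / y0 := by
  unfold dd at h
  rw [div_pow, div_eq_div_iff (pow_ne_zero _ h0) h0]
  linear_combination h

section Inf
variable {p n : ℕ} [Fact p.Prime] {k L : Type} [Field k] [IsAlgClosed k] [CharP k p] [Field L]
  [Algebra k L] [Algebra (RatFunc k) L] [IsScalarTower k (RatFunc k) L]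

omit [IsAlgClosed k] [CharP k p] in
private theorem val_T (hn : 0 < n) (c : ℕ → k) (A : ValuationSubring L) (hA : IsPlace k A)
    (hX : tX k L ∉ A) :
    A.valuation (pk k L (TP p n c) - tX k L ^ (p ^ (n - 1) * (p ^ n - 1))) <
      A.valuation (tX k L) ^ (p ^ (n - 1) * (p ^ n - 1)) := by
  have hv : 1 < A.valuation (tX k L) := by
    rw [← not_le, A.valuation_le_one_iff]; exact hX
  have hp : 1 < p := Nat.Prime.one_lt Fact.out
  have h1 : pk k L (TP p n c) - tX k L ^ (p ^ (n - 1) * (p ^ n - 1)) =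
      - ∑ i ∈ Finset.range (n - 1), algebraMap k L (c i) *
        tX k L ^ (p ^ i * (p ^ n + 1) - 2 * p ^ (n - 1)) := by
    unfold TP
    rw [map_sub, map_pow, pk_X, map_sum]
    simp only [map_mul, map_pow, pk_X, pk_C]
    ring
  rw [h1, Valuation.map_neg]
  apply Valuation.map_sum_lt
  · exact pow_ne_zero _ (by intro h; rw [h] at hv; exact absurd hv (by simp))
  · intro i hi
    rw [Finset.mem_range] at hi
    rw [map_mul, map_pow]
    have h2 : A.valuation (algebraMap k L (c i)) ≤ 1 := (A.valuation_le_one_iff _).2 (hA.2 _)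
    calc A.valuation (algebraMap k L (c i)) *
          A.valuation (tX k L) ^ (p ^ i * (p ^ n + 1) - 2 * p ^ (n - 1))
        ≤ 1 * A.valuation (tX k L) ^ (p ^ i * (p ^ n + 1) - 2 * p ^ (n - 1)) := by
          gcongr
      _ < A.valuation (tX k L) ^ (p ^ (n - 1) * (p ^ n - 1)) := by
          rw [one_mul]
          exact pow_lt_pow_right₀ hv (sm_deg hp hn hi)

theorem small_root (hp2 : p ≠ 2) (hn : 0 < n) (c : ℕ → k) (hF : FF k L) (A : ValuationSubring L)
    (hA : IsPlace k A)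
    (hX : tX k L ∉ A) (z0 z1 : L) (h0 : Rt (p ^ n) (pk k L (TP p n c)) z0)
    (h1 : Rt (p ^ n) (pk k L (TP p n c)) z1) (hd : dd (p ^ n) z0 z1 = 1) :
    ∃ y0 y1 : L, Rt (p ^ n) (pk k L (TP p n c)) y0 ∧ Rt (p ^ n) (pk k L (TP p n c)) y1 ∧
      dd (p ^ n) y0 y1 = 1 ∧ y0 * tX k L ^ (p ^ (n - 1)) - 1 ∈ A.nonunits ∧
      ∀ y, Rt (p ^ n) (pk k L (TP p n c)) y → (∀ a : L, a ^ (p ^ n) = a → y ≠ a * y0) → y ∉ A := by
  classical
  have hchar : CharP L p := charP_of_injective_ringHom (algebraMap k L).injective p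
  have hp : 1 < p := Nat.Prime.one_lt Fact.out
  have hq : 1 < p ^ n := Nat.one_lt_pow (by omega) hp
  set v := A.valuation with hvdef
  set T := pk k L (TP p n c) with hT
  set X := tX k L with hXdef
  set q := p ^ n with hqdef
  set m := p ^ (n - 1) with hmdef
  have hx : 1 < v X := by
    rw [← not_le, hvdef, A.valuation_le_one_iff]; exact hX
  have hx0 : v X ≠ 0 := by intro h; rw [h] at hx; exact absurd hx (by simp)
  have hX0 : X ≠ 0 := by intro h; rw [h, map_zero] at hx0; exact hx0 rfl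
  have hm : 0 < m := by rw [hmdef]; positivity
  have hN : m * (q - 1) ≠ 0 := by
    have : 0 < m * (q - 1) := Nat.mul_pos hm (by omega)
    omega
  have hTl := val_T (p := p) hn c A hA hX
  change v (T - X ^ (m * (q - 1))) < v X ^ (m * (q - 1)) at hTl
  have hvT : v T = v X ^ (m * (q - 1)) := by
    have h2 : T = X ^ (m * (q - 1)) + (T - X ^ (m * (q - 1))) := by ring
    rw [← map_pow] at hTl ⊢
    rw [h2]
    exact Valuation.map_add_eq_of_lt_left _ hTl
  have hT1 : 1 < v T := by rw [hvT]; exact one_lt_pow₀ hx hN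
  have hT0 : v T ≠ 0 := by intro h; rw [h] at hT1; exact absurd hT1 (by simp)
  have hroot : ∀ y, Rt q T y → T * y ^ q = y ^ (q ^ 2) + y := by
    intro y hy
    unfold Rt at hy
    linear_combination (-1 : L) * hy
  have hq2 : 1 < q ^ 2 := by nlinarith
  -- nonzero roots are not units
  have hA1 : ∀ y, Rt q T y → y ≠ 0 → v y ≠ 1 := by
    intro y hy _ hy1
    have h2 := congrArg v (hroot y hy)
    rw [map_mul, map_pow, hy1, one_pow, mul_one] at h2
    have h3 : v (y ^ (q ^ 2) + y) ≤ 1 := by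
      refine (Valuation.map_add v _ _).trans ?_
      rw [map_pow, hy1, one_pow, max_self]
    rw [← h2] at h3
    exact absurd hT1 (not_lt.2 h3)
  have hB1 : ∀ y, Rt q T y → 1 < v y → v y ^ (q ^ 2 - q) = v T := by
    intro y hy hy1
    have h2 := congrArg v (hroot y hy)
    have h3 : v (y ^ (q ^ 2) + y) = v (y ^ (q ^ 2)) := by
      apply Valuation.map_add_eq_of_lt_left
      rw [map_pow]
      calc v y = v y ^ 1 := (pow_one _).symm
        _ < v y ^ (q ^ 2) := pow_lt_pow_right₀ hy1 hq2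
    rw [h3, map_mul, map_pow, map_pow] at h2
    apply mixed hq _ h2.symm
    intro h; rw [h] at hy1; exact absurd hy1 (by simp)
  have hC1 : ∀ y, Rt q T y → y ≠ 0 → v y < 1 → v T * v y ^ (q - 1) = 1 := by
    intro y hy hy0 hy1
    have hvy : v y ≠ 0 := (Valuation.ne_zero_iff v).2 hy0
    have h2 := congrArg v (hroot y hy)
    have h3 : v (y ^ (q ^ 2) + y) = v y := by
      apply Valuation.map_add_eq_of_lt_right
      rw [map_pow]
      exact pow_lt_self_of_lt_one₀ (zero_lt_iff.2 hvy) hy1 hq2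
    rw [h3, map_mul, map_pow] at h2
    have h4 : v y ^ q = v y ^ (q - 1) * v y := by
      rw [← pow_succ]; congr 1; omega
    rw [h4, ← mul_assoc] at h2
    exact mul_right_cancel₀ hvy (h2.trans (one_mul _).symm)
  have hcmem : ∀ a : k, v (algebraMap k L a) ≤ 1 := fun a => (A.valuation_le_one_iff _).2 (hA.2 a)
  have hczero : ∀ a : k, v (algebraMap k L a) < 1 → a = 0 := by
    intro a ha
    by_contra hne
    have := PW.val_const A hA.2 a hne
    rw [← hvdef] at this
    rw [this] at ha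
    exact lt_irrefl _ ha
  -- two elements which differ by a small element: the fixed point equation passes to the residue
  have hresfix : ∀ (u : L) (r : k), v (u - algebraMap k L r) < 1 → v (u ^ q - u) < 1 →
      r ^ q = r := by
    intro u r h2 h3
    have h4 : v (algebraMap k L (r ^ q - r)) < 1 := by
      have h5 : algebraMap k L (r ^ q - r) =
          (u - algebraMap k L r) + ((u ^ q - u) - (u - algebraMap k L r) ^ q) := by
        rw [hqdef, sub_pow_char_pow, map_sub, map_pow]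
        ring
      rw [h5]
      refine Valuation.map_add_lt _ h2 (Valuation.map_sub_lt _ h3 ?_)
      rw [map_pow]
      exact pow_lt_one₀ zero_le h2 (by omega)
    exact sub_eq_zero.1 (hczero _ h4)
  have hz0 : z0 ≠ 0 := by
    rintro rfl
    unfold dd at hd
    rw [zero_pow (by omega)] at hd
    simp at hd
  have hz1 : z1 ≠ 0 := by
    rintro rfl
    unfold dd at hd
    rw [zero_pow (by omega)] at hd
    simp at hd
  -- a small root
  obtain ⟨y', hy', hy'0, hy'1⟩ : ∃ y, Rt q T y ∧ y ≠ 0 ∧ v y < 1 := by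
    by_contra hcon
    push Not at hcon
    have hbig : ∀ y, Rt q T y → y ≠ 0 → 1 < v y := fun y hy hy0 =>
      lt_of_le_of_ne (hcon y hy hy0) (hA1 y hy hy0).symm
    have e0 := hB1 z0 h0 (hbig z0 h0 hz0)
    have e1 := hB1 z1 h1 (hbig z1 h1 hz1)
    have hexp : q ^ 2 - q ≠ 0 := by
      have : q < q ^ 2 := by nlinarith
      omega
    have hpow : ∀ a b : A.ValueGroup, a ^ (q ^ 2 - q) = b ^ (q ^ 2 - q) → a = b := fun a b h =>
      (pow_left_inj₀ zero_le zero_le hexp).1 h
    have e2 : v z0 = v z1 := hpow _ _ (e0.trans e1.symm)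
    have hvz0 : v z0 ≠ 0 := (Valuation.ne_zero_iff v).2 hz0
    have hu : v (z1 / z0) = 1 := by
      rw [map_div₀, ← e2, div_self hvz0]
    have huA : z1 / z0 ∈ A := (A.valuation_le_one_iff _).1 hu.le
    obtain ⟨r, hr⟩ := PW.residue hF A hA (z1 / z0) huA
    rw [ValuationSubring.mem_nonunits_iff, ← hvdef] at hr
    have huq : v ((z1 / z0) ^ q - z1 / z0) < 1 := by
      have h2 : (z1 / z0) ^ q - z1 / z0 = (z0 ^ (q + 1))⁻¹ := by
        rw [div_pow, div_sub_div _ _ (pow_ne_zero _ hz0) hz0, ← pow_succ]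
        have h3 : z1 ^ q * z0 - z0 ^ q * z1 = 1 := by
          rw [← hd]; unfold dd; ring
        rw [h3, one_div]
      rw [h2, map_inv₀, map_pow]
      exact inv_lt_one_of_one_lt₀ (one_lt_pow₀ (hbig z0 h0 hz0) (by omega))
    have hrq := hresfix _ _ hr huq
    have hrq' : (algebraMap k L r) ^ (p ^ n) = algebraMap k L r := by
      rw [← map_pow, ← hqdef, hrq]
    have hy : Rt q T (z1 - algebraMap k L r * z0) := rt_sub h1 (rt_smul hrq' h0)
    have hyne : z1 - algebraMap k L r * z0 ≠ 0 := by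
      intro h
      have h2 : z1 = algebraMap k L r * z0 := sub_eq_zero.1 h
      rw [h2, dd_smul_right hrq'] at hd
      unfold dd at hd
      rw [mul_comm z0, sub_self, mul_zero] at hd
      exact zero_ne_one hd
    have e3 := hB1 _ hy (hbig _ hy hyne)
    have e4 := hpow _ _ (e3.trans e0.symm)
    have e5 : z1 - algebraMap k L r * z0 = z0 * (z1 / z0 - algebraMap k L r) := by
      field_simp
    rw [e5, map_mul] at e4
    have e6 : v (z1 / z0 - algebraMap k L r) = 1 := by
      apply mul_left_cancel₀ hvz0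
      rw [e4, mul_one]
    rw [e6] at hr
    exact lt_irrefl _ hr
  -- its normalisation
  have hC := hC1 y' hy' hy'0 hy'1
  have hvy' : v y' ≠ 0 := (Valuation.ne_zero_iff v).2 hy'0
  have hw : v (y' * X ^ m) = 1 := by
    have h2 : (v (y' * X ^ m)) ^ (q - 1) = 1 := by
      rw [map_mul, map_pow, mul_pow, ← pow_mul, ← hvT, mul_comm]
      exact hC
    exact (pow_eq_one_iff_of_nonneg zero_le (by omega)).1 h2
  have hwA : y' * X ^ m ∈ A := (A.valuation_le_one_iff _).1 hw.le
  obtain ⟨ζ, hζ⟩ := PW.residue hF A hA (y' * X ^ m) hwA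
  rw [ValuationSubring.mem_nonunits_iff, ← hvdef] at hζ
  have hwq : v ((y' * X ^ m) ^ q - y' * X ^ m) < 1 := by
    have hXN : X ^ (m * (q - 1)) ≠ 0 := pow_ne_zero _ hX0
    have hδ : v (T / X ^ (m * (q - 1)) - 1) < 1 := by
      have h2 : T / X ^ (m * (q - 1)) - 1 = (T - X ^ (m * (q - 1))) / X ^ (m * (q - 1)) := by
        field_simp
      rw [h2, map_div₀, map_pow]
      exact (div_lt_one₀ (zero_lt_iff.2 (pow_ne_zero _ hx0))).2 hTl
    have h3 : (y' * X ^ m) ^ q - y' * X ^ m =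
        X ^ m * y' ^ (q ^ 2) - (y' * X ^ m) ^ q * (T / X ^ (m * (q - 1)) - 1) := by
      have h4 : (y' * X ^ m) ^ q * (T / X ^ (m * (q - 1))) = X ^ m * (T * y' ^ q) := by
        have h5 : (X ^ m) ^ q = X ^ m * X ^ (m * (q - 1)) := by
          rw [← pow_mul, exp_aux m q hq, pow_add]
        rw [mul_pow, h5]
        field_simp
      rw [mul_sub, h4, hroot y' hy']
      ring
    rw [h3]
    refine Valuation.map_sub_lt _ ?_ ?_
    · have h6 : X ^ m * y' ^ (q ^ 2) = (y' * X ^ m) * y' ^ (q ^ 2 - 1) := by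
        have h7 : y' ^ (q ^ 2) = y' * y' ^ (q ^ 2 - 1) := by
          rw [← pow_succ']; congr 1; omega
        rw [h7]; ring
      rw [h6, map_mul, hw, one_mul, map_pow]
      exact pow_lt_one₀ zero_le hy'1 (by omega)
    · rw [map_mul, map_pow, hw, one_pow, one_mul]
      exact hδ
  have hζq := hresfix _ _ hζ hwq
  have hζ0 : ζ ≠ 0 := by
    rintro rfl
    rw [map_zero, sub_zero, hw] at hζ
    exact lt_irrefl _ hζ
  have hζL : algebraMap k L ζ ≠ 0 := (_root_.map_ne_zero _).2 hζ0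
  have hζinv : ((algebraMap k L ζ)⁻¹) ^ (p ^ n) = (algebraMap k L ζ)⁻¹ := by
    rw [inv_pow, ← map_pow, ← hqdef, hζq]
  have hvζ : v (algebraMap k L ζ)⁻¹ = 1 := by
    rw [map_inv₀, hvdef, PW.val_const A hA.2 ζ hζ0, inv_one]
  set y0 := (algebraMap k L ζ)⁻¹ * y' with hy0def
  have r0 : Rt q T y0 := rt_smul hζinv hy'
  have hy00 : y0 ≠ 0 := mul_ne_zero (inv_ne_zero hζL) hy'0
  have hvy0 : v y0 < 1 := by rw [hy0def, map_mul, hvζ, one_mul]; exact hy'1
  have hy0X : y0 * X ^ m - 1 ∈ A.nonunits := by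
    rw [ValuationSubring.mem_nonunits_iff, ← hvdef]
    have h2 : y0 * X ^ m - 1 = (algebraMap k L ζ)⁻¹ * (y' * X ^ m - algebraMap k L ζ) := by
      rw [hy0def, mul_sub, inv_mul_cancel₀ hζL]; ring
    rw [h2, map_mul, hvζ, one_mul]
    exact hζ
  -- the second root
  obtain ⟨y1, r1, hdd⟩ : ∃ y1, Rt q T y1 ∧ dd q y0 y1 = 1 := by
    have hdec := rt_decomp h0 h1 hd r0
    by_cases ha : dd q y0 z1 = 0
    · by_cases hb : dd q y0 z0 = 0
      · exfalso
        apply hy00
        have hb' : dd q z0 y0 = 0 := by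
          have : dd q z0 y0 = - dd q y0 z0 := by unfold dd; ring
          rw [this, hb, neg_zero]
        rw [hdec]
        change dd q y0 z1 * z0 + dd q z0 y0 * z1 = 0
        rw [ha, hb']; ring
      · have hf : ((dd q y0 z0)⁻¹) ^ (p ^ n) = (dd q y0 z0)⁻¹ := by
          rw [inv_pow]; congr 1; exact dd_fix r0 h0
        exact ⟨(dd q y0 z0)⁻¹ * z0, rt_smul hf h0, by rw [dd_smul_right hf, inv_mul_cancel₀ hb]⟩
    · have hf : ((dd q y0 z1)⁻¹) ^ (p ^ n) = (dd q y0 z1)⁻¹ := by
        rw [inv_pow]; congr 1; exact dd_fix r0 h1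
      exact ⟨(dd q y0 z1)⁻¹ * z1, rt_smul hf h1, by rw [dd_smul_right hf, inv_mul_cancel₀ ha]⟩
  refine ⟨y0, y1, r0, r1, hdd, hy0X, ?_⟩
  intro y hy hne hyA
  have hyne : y ≠ 0 := by
    intro h
    exact hne 0 (zero_pow (by omega)) (by rw [h, zero_mul])
  have hvy1 : v y < 1 := lt_of_le_of_ne ((A.valuation_le_one_iff _).2 hyA) (hA1 y hy hyne)
  have he : dd q y0 y = 0 := by
    by_contra he0
    have h2 : v (dd q y0 y) < 1 := by
      unfold dd
      refine Valuation.map_sub_lt _ ?_ ?_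
      · rw [map_mul, map_pow]
        exact mul_lt_one_of_nonneg_of_lt_one_left zero_le hvy0
          (pow_le_one₀ zero_le hvy1.le)
      · rw [map_mul, map_pow]
        exact mul_lt_one_of_nonneg_of_lt_one_left zero_le (pow_lt_one₀ zero_le hvy0 (by omega))
          hvy1.le
    have h3 : v (dd q y0 y) ^ q = v (dd q y0 y) := by
      rw [← map_pow]; congr 1; exact dd_fix r0 hy
    have h4 := pow_lt_self_of_lt_one₀ (zero_lt_iff.2 ((Valuation.ne_zero_iff v).2 he0)) h2 hq
    rw [h3] at h4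
    exact lt_irrefl _ h4
  exact hne (y / y0) (fixed_of_dd_zero hy00 he) (div_mul_cancel₀ y hy00).symm

end Inf

end Pool.Agent.Helper54.SL
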